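import Pool.Agent.H.MP_196ef9_co.A
import Pool.Agent.H.MP_196ef9_co.C

set_option autoImplicit false

namespace Pool.Agent.Results.MP_196ef9_co.No
open Finset Pool.Agent.H.MP_196ef9_co

theorem result (C : ℝ) : ∃ (V : Type) (_ : Fintype V) (_ : DecidableEq V) (G : SimpleGraph V),
    C < gbucket G - bucket G := by
  obtain ⟨L, hL⟩ := exists_nat_gt (C + 6)
  obtain ⟨R, hR, hH⟩ : ∃ R : ℕ, 0 < R ∧
      (L + 1 : ℝ) < ∑ s ∈ range R, 1 / (((R + L : ℕ) : ℝ) - s) := by
    obtain ⟨k, hk⟩ := Filter.eventually_atTop.1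
      (Real.tendsto_sum_range_one_div_nat_succ_atTop.eventually
        (Filter.eventually_gt_atTop (L + 1 + ∑ i ∈ range L, (1 / (i + 1) : ℝ))))
    refine ⟨k + 1, by omega, ?_⟩
    have a := hk (L + (k + 1)) (by omega)
    rw [sum_range_add, ← sum_range_reflect _ (k + 1)] at a
    refine lt_of_lt_of_eq (by linarith) (sum_congr rfl fun s hs => ?_ : ∑ s ∈ range (k + 1),
      (1 / ((L + (k + 1 - 1 - s) : ℕ) + 1) : ℝ) = _)
    have := mem_range.1 hs
    rw [show L + (k + 1 - 1 - s) = L + k - s by omega, Nat.cast_sub (by omega)]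
    push_cast
    ring
  obtain ⟨n, hn⟩ : ∃ n, R + L = n := ⟨_, rfl⟩
  rw [hn] at hH
  have n0 : 0 < n := by omega
  obtain ⟨t, ht⟩ : ∃ t, t = 2 ^ (4 * n) * n ^ 4 := ⟨_, rfl⟩
  obtain ⟨m, hm⟩ : ∃ m, m = 2 ^ (4 * n) * t + 1 := ⟨_, rfl⟩
  have hmt : m * n ^ 4 ≤ (t + 1) ^ 2 := by
    have : n ^ 4 ≤ t := ht ▸ Nat.le_mul_of_pos_left _ (by positivity)
    have : m * n ^ 4 = t * t + n ^ 4 := by rw [hm]; nth_rewrite 2 [ht]; ring
    nlinarith
  let r : Option (Fin n × (Fin m → Bool)) → Option (Fin n × (Fin m → Bool)) → Prop := fun a b =>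
    a.elim True fun u => b.elim False fun w => u.1 ≠ w.1 ∧ hammingDist u.2 (fun k => !w.2 k) ≤ t
  let G := SimpleGraph.fromRel r
  have hb : ∀ i x y, ¬ G.Adj (some (i, x)) (some (i, y)) := fun i x y h => by
    simpa [r] using h.2
  have w6 : Wins G 6 := wins6 n0 G hb fun S h0 hS => by
    obtain ⟨J, c, hJ, hc⟩ := const_on (t := t) S (fun v => v.elim (fun _ => true) (·.2))
      ((Nat.lt_succ_of_le (Nat.mul_le_mul_right _ (Nat.pow_le_pow_right two_pos hS))).trans_eq
        hm.symm)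
    have k : ∀ a ∈ S, ∀ b ∈ S, c a = c b → ¬ r a b := fun a ha b hb e h => by
      rcases a with _ | u
      · exact h0 ha
      rcases b with _ | w
      · exact h0 hb
      refine absurd (hJ.trans_le ((card_le_card fun j hj => ?_).trans h.2)) (lt_irrefl _)
      have p := hc _ ha j hj
      have q := hc _ hb j hj
      simp only [Option.elim] at p q
      simp [p, q, e]
    have k' : ∀ a ∈ S, ∀ b ∈ S, c a = c b → ¬ G.Adj a b := fun a ha b hb e h =>
      h.2.elim (k a ha b hb e) (k b hb a ha e.symm)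
    refine ⟨S.filter fun a => c a = true, fun a ha b hb _ => ?_, fun a ha b hb _ => ?_⟩
    · have := mem_filter.1 ha
      have := mem_filter.1 hb
      exact k' a (by tauto) b (by tauto) (by simp_all)
    · have p := mem_sdiff.1 ha
      have q := mem_sdiff.1 hb
      exact k' a p.1 b q.1 (by simp_all)
  have gl := greedy_low hn hR G (fun u => ⟨by simp, Or.inl trivial⟩) hb (fun I hI => ?_) hH
  · refine ⟨_, inferInstance, inferInstance, G, ?_⟩
    have a : sInf {b | 0 < b ∧ Wins G b} ≤ 6 := csInf_le ⟨0, fun b h => h.1.le⟩ ⟨by norm_num, w6⟩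
    have b : (L : ℝ) ≤ sInf {b | 0 < b ∧ GreedyWins G b} :=
      le_csInf ⟨_, by exact_mod_cast Fintype.card_pos, greedy_card G⟩ fun b h => gl b h.2
    unfold gbucket bucket
    linarith
  by_contra h
  push Not at h
  obtain ⟨j, -, hj⟩ := h ⟨0, n0⟩
  obtain ⟨k, hk, hk'⟩ := h j
  obtain ⟨a, ha, b, hb', e⟩ := close m t (univ.filter fun x => some (j, x) ∈ I)
      ((univ.filter fun x => some (k, x) ∈ I).image fun y l => !y l) (by
    rw [card_image_of_injective _ fun y z e => funext fun l => by simpa using congrFun e l]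
    simp only [Fintype.card_pi, Fintype.card_bool, prod_const, card_univ, Fintype.card_fin,
      Nat.cast_pow, Nat.cast_ofNat] at hj hk'
    have p : (m : ℝ) * n ^ 4 ≤ (t + 1) ^ 2 := by exact_mod_cast hmt
    have q := mul_lt_mul'' hj hk' (by positivity) (by positivity)
    have n1 : (0 : ℝ) < n ^ 4 := by positivity
    refine lt_of_mul_lt_mul_right ?_ n1.le
    calc _ = (2 ^ m * 2 ^ m) * ((m : ℝ) * n ^ 4) := by ring
      _ ≤ (2 ^ m * 2 ^ m) * ((t : ℝ) + 1) ^ 2 := by gcongr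
      _ < _ := (mul_lt_mul_of_pos_right q (by positivity)).trans_eq (by ring))
  obtain ⟨y, hy, rfl⟩ := mem_image.1 hb'
  have ne : (some (j, a) : Option (Fin n × (Fin m → Bool))) ≠ some (k, y) := by simp [hk.symm]
  exact hI (mem_filter.1 ha).2 (mem_filter.1 hy).2 ne ⟨ne, Or.inl ⟨hk.symm, e⟩⟩

end Pool.Agent.Results.MP_196ef9_co.No
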